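import Pool.Agent.H42.Cofin2

open Pool.Agent.H42.Cofin Pool.Agent.H42.IMeag Pool.Agent.H42.Spl

/-- Parts (a) and (b) hold if `b < g`, and part (c) holds outright. -/
theorem Pool.Agent.Results.MP_66ab92_lc.Full.result :
    (bN < gNum → (∃ I, BorelI I ∧ Below (lens Down I) (lens Idl I)) ∧
      ∃ I, BorelI I ∧ Below (lens Idl I) (lens SIdl I)) ∧
    ∃ I, BorelI I ∧ Below (lens SIdl I) (lens (fun J => SIdl J ∧ ∀ x, {x} ∈ J) I) :=
  ⟨fun h => ⟨⟨_, borel_II _, partA h⟩, _, borel_II _, partB h⟩, _, partC⟩
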